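import Pool.Agent.R271.Weak

/-!
# Quantitative weak Banach-Saks property: `wbs(A) < 2 swu(A)` can happen
-/

open Filter Topology Metric Set
open scoped ENNReal

namespace Pool.Agent.Results.MP_b2e8e7_an.WbsLtTwoSwu

section defs
variable {X : Type*} [NormedAddCommGroup X] [NormedSpace ℝ X]

/-- `ca(x_k) = inf_n sup {‖x_k - x_l‖ : k, l ≥ n}`. -/
noncomputable def ca (x : ℕ → X) : ℝ :=
  ⨅ n : ℕ, sSup {r : ℝ | ∃ k l : ℕ, n ≤ k ∧ n ≤ l ∧ r = ‖x k - x l‖}

/-- The measure `ca` of the sequence of arithmetic means. -/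
noncomputable def cca (x : ℕ → X) : ℝ :=
  ca (fun k : ℕ => (1 / ((k : ℝ) + 1)) • ∑ i ∈ Finset.range (k + 1), x i)

/-- The infimum of `cca` over all subsequences. -/
noncomputable def ccaT (x : ℕ → X) : ℝ :=
  sInf {r : ℝ | ∃ φ : ℕ → ℕ, StrictMono φ ∧ r = cca (x ∘ φ)}

/-- `x` converges weakly to `a`. -/
def WeakTendsto (x : ℕ → X) (a : X) : Prop :=
  Tendsto (fun k => toWeakSpace ℝ X (x k)) atTop (𝓝 (toWeakSpace ℝ X a))

/-- `wu` of a sequence `x` with weak limit `a`. -/
noncomputable def wu (x : ℕ → X) (a : X) : ℝ :=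
  sInf {ε : ℝ | 0 < ε ∧ ∃ n : ℕ, ∀ f : StrongDual ℝ X, ‖f‖ ≤ 1 →
    {k : ℕ | ε < |f (x k - a)|}.encard ≤ n}

/-- The infimum of `wu` over all subsequences. -/
noncomputable def wuT (x : ℕ → X) (a : X) : ℝ :=
  sInf {r : ℝ | ∃ φ : ℕ → ℕ, StrictMono φ ∧ r = wu (x ∘ φ) a}

/-- `wbs(A)`. -/
noncomputable def wbs (A : Set X) : ℝ :=
  sSup {r : ℝ | ∃ (x : ℕ → X) (a : X), (∀ k, x k ∈ A) ∧ WeakTendsto x a ∧ r = ccaT x}

/-- `swu(A)`. -/
noncomputable def swu (A : Set X) : ℝ :=
  sSup {r : ℝ | ∃ (x : ℕ → X) (a : X), (∀ k, x k ∈ A) ∧ WeakTendsto x a ∧ r = wuT x a}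

end defs

/-- The Schreier family. -/
def Sch : Type := {F : Finset ℕ // ∀ i ∈ F, F.card ≤ i}

instance : Nonempty Sch := ⟨⟨∅, by simp⟩⟩

/-- Bounded functions on the Schreier family. -/
abbrev Ex : Type := lp (fun _ : Sch => ℝ) ∞

/-- The vector `e k`. -/
noncomputable def e (k : ℕ) : Ex :=
  ⟨fun F => if k ∈ F.1 then (1 : ℝ) else 0, by
    apply memℓp_infty
    refine ⟨1, ?_⟩
    rintro _ ⟨F, rfl⟩
    dsimp only
    split_ifs <;> simp⟩

lemma e_apply (k : ℕ) (F : Sch) : e k F = if k ∈ F.1 then (1 : ℝ) else 0 := rfl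

lemma sum_apply {ι : Type*} (s : Finset ι) (c : ι → ℝ) (n : ι → ℕ) (F : Sch) :
    (∑ i ∈ s, c i • e (n i) : Ex) F = ∑ i ∈ s, c i * (if n i ∈ F.1 then (1 : ℝ) else 0) := by
  rw [lp.coeFn_sum, Finset.sum_apply]
  apply Finset.sum_congr rfl
  intro i _
  rw [lp.coeFn_smul, Pi.smul_apply, e_apply, smul_eq_mul]

lemma norm_le {x : Ex} {C : ℝ} (hC : 0 ≤ C) (h : ∀ F, |x F| ≤ C) : ‖x‖ ≤ C :=
  lp.norm_le_of_forall_le hC h

lemma norm_e_le (k : ℕ) : ‖e k‖ ≤ 1 := by
  apply norm_le zero_le_one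
  intro F
  rw [e_apply]
  split_ifs <;> simp

/-- Evaluation at an element of the Schreier family. -/
noncomputable def ev (F : Sch) : StrongDual ℝ Ex := lp.evalCLM ℝ (fun _ : Sch => ℝ) ∞ F

lemma ev_apply (F : Sch) (x : Ex) : ev F x = x F := rfl

lemma norm_ev_le (F : Sch) : ‖ev F‖ ≤ 1 := by
  apply ContinuousLinearMap.opNorm_le_bound _ zero_le_one
  intro x
  rw [one_mul]
  exact lp.norm_apply_le_norm (by simp) x F

/-- The unit vectors are weakly null. -/
lemma e_weak_null (f : StrongDual ℝ Ex) : Tendsto (fun k => f (e k)) atTop (𝓝 0) := by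
  rw [Metric.tendsto_atTop]
  by_contra hcon
  push Not at hcon
  obtain ⟨ε, hε, hfreq⟩ := hcon
  set M : Set ℕ := {k | ε ≤ |f (e k)|} with hM
  have hMinf : M.Infinite := by
    rw [Set.infinite_iff_exists_gt]
    intro N
    obtain ⟨n, hn, hn2⟩ := hfreq (N + 1)
    rw [dist_zero_right, Real.norm_eq_abs] at hn2
    exact ⟨n, hn2, hn⟩
  have hbound : ∀ r : ℕ, 0 < r → ε ≤ ‖f‖ * (2 / r) := by
    intro r hr
    have hr' : (0 : ℝ) < r := by exact_mod_cast hr
    obtain ⟨G, hG1, hG2⟩ := exists_seq_of_forall_finset_exists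
      (fun G : Finset ℕ => G.Nonempty ∧ ∀ m ∈ G, m ∈ M)
      (fun G H => ∀ m ∈ G, r * m ≤ H.card) (by
        intro s _
        obtain ⟨t, ht, htc⟩ := hMinf.exists_subset_card_eq (1 + r * (s.sup fun G => G.sup id))
        refine ⟨t, ⟨Finset.card_pos.1 (by omega), fun m hm => ht hm⟩, ?_⟩
        intro G hG m hm
        rw [htc]
        have h1 : m ≤ G.sup id := Finset.le_sup (f := id) hm
        have h2 : G.sup id ≤ s.sup fun G => G.sup id := Finset.le_sup (f := fun G => G.sup id) hG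
        have h3 := Nat.mul_le_mul_left r (h1.trans h2)
        omega)
    have hcard : ∀ j, (0 : ℝ) < (G j).card := fun j => by
      exact_mod_cast Finset.card_pos.2 (hG1 j).1
    -- the repeated average
    let σ : ℕ → ℝ := fun k => if 0 ≤ f (e k) then 1 else -1
    have hσ1 : ∀ k, |σ k| = 1 := fun k => by simp only [σ]; split_ifs <;> simp
    have hσ2 : ∀ k, σ k * f (e k) = |f (e k)| := fun k => by
      simp only [σ]
      split_ifs with h
      · rw [one_mul, abs_of_nonneg h]
      · rw [abs_of_neg (not_le.1 h)]; ring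
    let a : Ex := ∑ j ∈ Finset.range r, (1 / (r : ℝ)) •
      ∑ k ∈ G j, ((1 / ((G j).card : ℝ)) * σ k) • e k
    have ha1 : ε ≤ f a := by
      have e1 : f a = ∑ j ∈ Finset.range r, (1 / (r : ℝ)) *
          ((1 / ((G j).card : ℝ)) * ∑ k ∈ G j, |f (e k)|) := by
        simp only [a, map_sum, map_smul, smul_eq_mul]
        apply Finset.sum_congr rfl
        intro j _
        congr 1
        rw [Finset.mul_sum]
        apply Finset.sum_congr rfl
        intro k _
        rw [mul_assoc, hσ2]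
      rw [e1]
      have e2 : ∀ j ∈ Finset.range r, (1 / (r : ℝ)) * ε ≤ (1 / (r : ℝ)) *
          ((1 / ((G j).card : ℝ)) * ∑ k ∈ G j, |f (e k)|) := by
        intro j _
        apply mul_le_mul_of_nonneg_left _ (by positivity)
        have e3 : ((G j).card : ℝ) * ε ≤ ∑ k ∈ G j, |f (e k)| := by
          rw [← nsmul_eq_mul]
          exact Finset.card_nsmul_le_sum _ _ _ fun k hk => (hG1 j).2 k hk
        rw [one_div, le_inv_mul_iff₀ (hcard j)]
        exact e3
      calc ε = ∑ j ∈ Finset.range r, (1 / (r : ℝ)) * ε := by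
            rw [Finset.sum_const, Finset.card_range, nsmul_eq_mul]; field_simp
        _ ≤ _ := Finset.sum_le_sum e2
    have ha2 : ‖a‖ ≤ 2 / r := by
      apply norm_le (by positivity)
      intro S
      have e4 : a S = ∑ j ∈ Finset.range r, (1 / (r : ℝ)) *
          ∑ k ∈ G j, ((1 / ((G j).card : ℝ)) * σ k) * (if k ∈ S.1 then (1 : ℝ) else 0) := by
        simp only [a]
        rw [lp.coeFn_sum, Finset.sum_apply]
        apply Finset.sum_congr rfl
        intro j _
        rw [lp.coeFn_smul, Pi.smul_apply, smul_eq_mul, sum_apply]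
      have e5 : ∀ j, |∑ k ∈ G j, ((1 / ((G j).card : ℝ)) * σ k) *
          (if k ∈ S.1 then (1 : ℝ) else 0)| ≤
          (1 / ((G j).card : ℝ)) * (((G j).filter (· ∈ S.1)).card : ℝ) := by
        intro j
        calc |∑ k ∈ G j, ((1 / ((G j).card : ℝ)) * σ k) * (if k ∈ S.1 then (1 : ℝ) else 0)|
            ≤ ∑ k ∈ G j, |((1 / ((G j).card : ℝ)) * σ k) * (if k ∈ S.1 then (1 : ℝ) else 0)| :=
              Finset.abs_sum_le_sum_abs _ _
          _ = ∑ k ∈ G j, (1 / ((G j).card : ℝ)) * (if k ∈ S.1 then (1 : ℝ) else 0) := by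
              apply Finset.sum_congr rfl
              intro k _
              rw [abs_mul, abs_mul, hσ1, mul_one, abs_of_nonneg (by positivity)]
              congr 1
              split_ifs <;> simp
          _ = _ := by
              rw [← Finset.mul_sum, Finset.sum_ite, Finset.sum_const, Finset.sum_const_zero,
                add_zero, nsmul_eq_mul, mul_one]
      -- each block contributes at most one
      have e6 : ∀ j, (1 / ((G j).card : ℝ)) * (((G j).filter (· ∈ S.1)).card : ℝ) ≤ 1 := by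
        intro j
        rw [one_div, inv_mul_le_iff₀ (hcard j), mul_one]
        exact_mod_cast Finset.card_filter_le _ _
      have e7 : ∑ j ∈ Finset.range r,
          (1 / ((G j).card : ℝ)) * (((G j).filter (· ∈ S.1)).card : ℝ) ≤ 2 := by
        by_cases hex : ∃ j, ((G j).filter (· ∈ S.1)).Nonempty
        · classical
          obtain ⟨m, hm⟩ := Nat.find_spec hex
          set j₀ := Nat.find hex
          rw [Finset.mem_filter] at hm
          have hSm : S.1.card ≤ m := S.2 m hm.2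
          have hm0 : 0 < m := by
            have : 0 < S.1.card := Finset.card_pos.2 ⟨m, hm.2⟩
            omega
          have hterm : ∀ j ∈ Finset.range r,
              (1 / ((G j).card : ℝ)) * (((G j).filter (· ∈ S.1)).card : ℝ) ≤
              (if j = j₀ then 1 else 0) + 1 / (r : ℝ) := by
            intro j _
            rcases lt_trichotomy j j₀ with hj | hj | hj
            · have h0 : (G j).filter (· ∈ S.1) = ∅ := by
                by_contra hne
                exact Nat.find_min hex hj (Finset.nonempty_iff_ne_empty.2 hne)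
              rw [h0, Finset.card_empty, Nat.cast_zero, mul_zero, if_neg hj.ne, zero_add]
              positivity
            · rw [if_pos hj]
              have := e6 j
              have : (0 : ℝ) ≤ 1 / r := by positivity
              linarith
            · rw [if_neg hj.ne', zero_add]
              have h1 : ((G j).filter (· ∈ S.1)).card ≤ m := by
                refine le_trans (Finset.card_le_card ?_) hSm
                intro k hk
                exact (Finset.mem_filter.1 hk).2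
              have h2 : r * m ≤ (G j).card := hG2 j₀ j hj m hm.1
              rw [one_div, inv_mul_le_iff₀ (hcard j), mul_one_div, le_div_iff₀ hr']
              calc (((G j).filter (· ∈ S.1)).card : ℝ) * r ≤ m * r := by
                    apply mul_le_mul_of_nonneg_right _ hr'.le
                    exact_mod_cast h1
                _ = r * m := mul_comm _ _
                _ ≤ (G j).card := by exact_mod_cast h2
          refine (Finset.sum_le_sum hterm).trans ?_
          rw [Finset.sum_add_distrib, Finset.sum_const, Finset.card_range, nsmul_eq_mul]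
          have h3 : ∑ j ∈ Finset.range r, (if j = j₀ then (1 : ℝ) else 0) ≤ 1 := by
            rw [Finset.sum_ite_eq']
            split_ifs <;> norm_num
          have h4 : (r : ℝ) * (1 / r) = 1 := by field_simp
          linarith
        · push Not at hex
          have : ∑ j ∈ Finset.range r,
              (1 / ((G j).card : ℝ)) * (((G j).filter (· ∈ S.1)).card : ℝ) = 0 := by
            apply Finset.sum_eq_zero
            intro j _
            rw [hex j, Finset.card_empty, Nat.cast_zero, mul_zero]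
          rw [this]; norm_num
      rw [e4]
      calc |∑ j ∈ Finset.range r, (1 / (r : ℝ)) *
          ∑ k ∈ G j, ((1 / ((G j).card : ℝ)) * σ k) * (if k ∈ S.1 then (1 : ℝ) else 0)|
          ≤ ∑ j ∈ Finset.range r, |(1 / (r : ℝ)) *
            ∑ k ∈ G j, ((1 / ((G j).card : ℝ)) * σ k) * (if k ∈ S.1 then (1 : ℝ) else 0)| :=
            Finset.abs_sum_le_sum_abs _ _
        _ ≤ ∑ j ∈ Finset.range r, (1 / (r : ℝ)) *
            ((1 / ((G j).card : ℝ)) * (((G j).filter (· ∈ S.1)).card : ℝ)) := by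
            apply Finset.sum_le_sum
            intro j _
            rw [abs_mul, abs_of_nonneg (by positivity : (0 : ℝ) ≤ 1 / r)]
            exact mul_le_mul_of_nonneg_left (e5 j) (by positivity)
        _ = (1 / (r : ℝ)) * ∑ j ∈ Finset.range r,
            ((1 / ((G j).card : ℝ)) * (((G j).filter (· ∈ S.1)).card : ℝ)) := by
            rw [Finset.mul_sum]
        _ ≤ (1 / (r : ℝ)) * 2 := mul_le_mul_of_nonneg_left e7 (by positivity)
        _ = 2 / r := by ring
    calc ε ≤ f a := ha1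
      _ ≤ |f a| := le_abs_self _
      _ ≤ ‖f‖ * ‖a‖ := f.le_opNorm a
      _ ≤ ‖f‖ * (2 / r) := mul_le_mul_of_nonneg_left ha2 (norm_nonneg _)
  obtain ⟨r, hr⟩ := exists_nat_gt (‖f‖ * 2 / ε)
  have hr0 : (0 : ℝ) < r := lt_of_le_of_lt (by positivity) hr
  have := hbound r (by exact_mod_cast hr0)
  rw [div_lt_iff₀ hε] at hr
  have h5 : ‖f‖ * (2 / r) * r = ‖f‖ * 2 := by field_simp
  nlinarith

/-- The set of the example. -/
def A : Set Ex := {x | ∃ k : ℕ, x = e (k + 1)}

lemma cca_le_one (x : ℕ → Ex) (hx : ∀ k, x k ∈ A) : cca x ≤ 1 := by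
  choose n hn using hx
  have hdiff : ∀ k l : ℕ, k ≤ l →
      ‖(1 / ((k : ℝ) + 1)) • ∑ i ∈ Finset.range (k + 1), x i -
        (1 / ((l : ℝ) + 1)) • ∑ i ∈ Finset.range (l + 1), x i‖ ≤ 1 := by
    intro k l hkl
    apply norm_le zero_le_one
    intro F
    have hx' : ∀ i, x i = e (n i + 1) := hn
    have e0 : ∀ m : ℕ, ((1 / ((m : ℝ) + 1)) • ∑ i ∈ Finset.range (m + 1), x i : Ex) F =
        (1 / ((m : ℝ) + 1)) * ∑ i ∈ Finset.range (m + 1),
          (if n i + 1 ∈ F.1 then (1 : ℝ) else 0) := by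
      intro m
      rw [lp.coeFn_smul, Pi.smul_apply, smul_eq_mul, lp.coeFn_sum, Finset.sum_apply]
      congr 1
      apply Finset.sum_congr rfl
      intro i _
      rw [hx', e_apply]
    have e1 : ∀ m : ℕ, 0 ≤ (1 / ((m : ℝ) + 1)) * ∑ i ∈ Finset.range (m + 1),
        (if n i + 1 ∈ F.1 then (1 : ℝ) else 0) := by
      intro m
      apply mul_nonneg (by positivity)
      apply Finset.sum_nonneg
      intro i _
      split_ifs <;> norm_num
    have e2 : ∀ m : ℕ, (1 / ((m : ℝ) + 1)) * ∑ i ∈ Finset.range (m + 1),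
        (if n i + 1 ∈ F.1 then (1 : ℝ) else 0) ≤ 1 := by
      intro m
      rw [one_div, inv_mul_le_iff₀ (by positivity), mul_one]
      calc ∑ i ∈ Finset.range (m + 1), (if n i + 1 ∈ F.1 then (1 : ℝ) else 0)
          ≤ ∑ i ∈ Finset.range (m + 1), (1 : ℝ) := by
            apply Finset.sum_le_sum
            intro i _
            split_ifs <;> norm_num
        _ = (m : ℝ) + 1 := by simp
    rw [lp.coeFn_sub, Pi.sub_apply, e0, e0, abs_le]
    constructor
    · linarith [e1 k, e2 l]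
    · linarith [e1 l, e2 k]
  have hall : ∀ k l : ℕ,
      ‖(1 / ((k : ℝ) + 1)) • ∑ i ∈ Finset.range (k + 1), x i -
        (1 / ((l : ℝ) + 1)) • ∑ i ∈ Finset.range (l + 1), x i‖ ≤ 1 := by
    intro k l
    rcases le_total k l with h | h
    · exact hdiff k l h
    · rw [norm_sub_rev]; exact hdiff l k h
  rw [cca, ca]
  refine ciInf_le_of_le ⟨0, ?_⟩ 0 ?_
  · rintro _ ⟨m, rfl⟩
    apply Real.sSup_nonneg
    rintro _ ⟨k, l, -, -, rfl⟩
    exact norm_nonneg _
  · apply Real.sSup_le _ zero_le_one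
    rintro _ ⟨k, l, -, -, rfl⟩
    exact hall k l

lemma cca_nonneg {X : Type*} [NormedAddCommGroup X] [NormedSpace ℝ X] (x : ℕ → X) :
    0 ≤ cca x := by
  rw [cca, ca]
  apply Real.iInf_nonneg
  intro m
  apply Real.sSup_nonneg
  rintro _ ⟨k, l, -, -, rfl⟩
  exact norm_nonneg _

lemma wbs_le : wbs A ≤ 1 := by
  rw [wbs]
  apply Real.sSup_le _ zero_le_one
  rintro _ ⟨x, a, hx, -, rfl⟩
  rw [ccaT]
  have hmem : cca (x ∘ id) ∈ {r : ℝ | ∃ φ : ℕ → ℕ, StrictMono φ ∧ r = cca (x ∘ φ)} :=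
    ⟨id, strictMono_id, rfl⟩
  refine (csInf_le ⟨0, ?_⟩ hmem).trans (cca_le_one _ hx)
  rintro _ ⟨φ, -, rfl⟩
  exact cca_nonneg _

lemma wu_nonneg {X : Type*} [NormedAddCommGroup X] [NormedSpace ℝ X] (x : ℕ → X) (a : X) :
    0 ≤ wu x a := by
  rw [wu]
  apply Real.sInf_nonneg
  rintro ε ⟨hε, -⟩
  exact hε.le

lemma mem_wu_set (x : ℕ → Ex) (a : Ex) (hx : ∀ k, x k ∈ A) (ha : WeakTendsto x a) :
    (3 : ℝ) ∈ {ε : ℝ | 0 < ε ∧ ∃ n : ℕ, ∀ f : StrongDual ℝ Ex, ‖f‖ ≤ 1 →
      {k : ℕ | ε < |f (x k - a)|}.encard ≤ n} := by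
  refine ⟨by norm_num, 0, fun f hf => ?_⟩
  have hfx : ∀ k, |f (x k)| ≤ 1 := by
    intro k
    obtain ⟨m, hm⟩ := hx k
    rw [hm]
    calc |f (e (m + 1))| ≤ ‖f‖ * ‖e (m + 1)‖ := f.le_opNorm _
      _ ≤ 1 * 1 := mul_le_mul hf (norm_e_le _) (norm_nonneg _) zero_le_one
      _ = 1 := one_mul _
  have hfa : |f a| ≤ 1 := by
    have h1 : Tendsto (fun k => |f (x k)|) atTop (𝓝 |f a|) :=
      ((R271.tendsto_weak_iff (𝕜 := ℝ)).1 ha f).abs
    exact le_of_tendsto h1 (Eventually.of_forall hfx)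
  have h2 : {k : ℕ | (3 : ℝ) < |f (x k - a)|} = ∅ := by
    ext k
    simp only [Set.mem_ofPred_eq, Set.mem_empty_iff_false, iff_false, not_lt]
    rw [map_sub]
    calc |f (x k) - f a| ≤ |f (x k)| + |f a| := abs_sub _ _
      _ ≤ 3 := by linarith [hfx k]
  rw [h2]; simp

lemma one_le_swu : 1 ≤ swu A := by
  have hweak : WeakTendsto (fun k => e (k + 1)) (0 : Ex) := by
    rw [WeakTendsto, R271.tendsto_weak_iff]
    intro f
    rw [map_zero]
    exact (e_weak_null f).comp (tendsto_add_atTop_nat 1)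
  have hA : ∀ k : ℕ, e (k + 1) ∈ A := fun k => ⟨k, rfl⟩
  have h1 : 1 ≤ wuT (fun k => e (k + 1)) (0 : Ex) := by
    rw [wuT]
    have hmem : wu ((fun k => e (k + 1)) ∘ id) (0 : Ex) ∈ {r : ℝ | ∃ φ : ℕ → ℕ, StrictMono φ ∧
        r = wu ((fun k => e (k + 1)) ∘ φ) (0 : Ex)} := ⟨id, strictMono_id, rfl⟩
    apply le_csInf ⟨_, hmem⟩
    rintro _ ⟨φ, hφ, rfl⟩
    rw [wu]
    apply le_csInf
    · refine ⟨3, mem_wu_set _ _ (fun k => hA _) ?_⟩
      exact hweak.comp hφ.tendsto_atTop
    · rintro ε ⟨hε, n, hn⟩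
      by_contra hlt
      push Not at hlt
      -- the Schreier set
      have hinj : Function.Injective fun k => φ k + 1 := fun a b h => hφ.injective (by simpa using h)
      let F : Finset ℕ := (Finset.Ico (n + 1) (2 * n + 2)).image fun k => φ k + 1
      have hFcard : F.card = n + 1 := by
        rw [Finset.card_image_of_injective _ hinj, Nat.card_Ico]; omega
      let S : Sch := ⟨F, by
        intro i hi
        rw [Finset.mem_image] at hi
        obtain ⟨k, hk, rfl⟩ := hi
        rw [Finset.mem_Ico] at hk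
        have := hφ.id_le k
        simp only [id] at this
        omega⟩
      have h2 := hn (ev S) (norm_ev_le S)
      have h3 : ((Finset.Ico (n + 1) (2 * n + 2) : Finset ℕ) : Set ℕ) ⊆
          {k : ℕ | ε < |ev S (((fun k => e (k + 1)) ∘ φ) k - (0 : Ex))|} := by
        intro k hk
        rw [Finset.mem_coe] at hk
        show ε < |ev S (((fun k => e (k + 1)) ∘ φ) k - (0 : Ex))|
        rw [sub_zero, ev_apply, Function.comp_apply, e_apply, if_pos, abs_one]
        · exact hlt
        · exact Finset.mem_image_of_mem (fun k => φ k + 1) hk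
      have h4 := (Set.encard_le_encard h3).trans h2
      rw [Set.encard_coe_eq_coe_finsetCard, Nat.card_Ico] at h4
      have h5 : 2 * n + 2 - (n + 1) ≤ n := by exact_mod_cast h4
      omega
  refine h1.trans ?_
  rw [swu]
  apply le_csSup
  · refine ⟨3, ?_⟩
    rintro _ ⟨x, a, hx, ha, rfl⟩
    rw [wuT]
    have hmem : wu (x ∘ id) a ∈ {r : ℝ | ∃ φ : ℕ → ℕ, StrictMono φ ∧ r = wu (x ∘ φ) a} :=
      ⟨id, strictMono_id, rfl⟩
    refine (csInf_le ⟨0, ?_⟩ hmem).trans ?_
    · rintro _ ⟨φ, -, rfl⟩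
      exact wu_nonneg _ _
    · rw [wu]
      apply csInf_le ⟨0, ?_⟩ (mem_wu_set x a hx ha)
      rintro ε ⟨hε, -⟩
      exact hε.le
  · exact ⟨_, 0, hA, hweak, rfl⟩

theorem result : ∃ (X : Type) (_ : NormedAddCommGroup X) (_ : NormedSpace ℝ X)
    (_ : CompleteSpace X) (A : Set X), Bornology.IsBounded A ∧ wbs A ≤ 1 ∧ 1 ≤ swu A ∧
      wbs A < 2 * swu A := by
  refine ⟨Ex, inferInstance, inferInstance, inferInstance, A, ?_, wbs_le, one_le_swu, ?_⟩
  · rw [isBounded_iff_forall_norm_le]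
    refine ⟨1, ?_⟩
    rintro _ ⟨k, rfl⟩
    exact norm_e_le _
  · linarith [wbs_le, one_le_swu]

end Pool.Agent.Results.MP_b2e8e7_an.WbsLtTwoSwu
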